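import Pool.Agent.helper44.NLT.Spec

/-! # Project nl: (MP_70a088_an): module REP -/

set_option autoImplicit false

open Complex Metric Set Filter Topology MeasureTheory MPS
open Pool.Agent.helper98.ILF Pool.Agent.helper16.Multibrot

noncomputable section

namespace NLT

theorem REP_loc (h : ℂ → ℂ) (z₀ : ℂ) (hd : DifferentiableAt ℂ h z₀) (hz : h z₀ = z₀) (κ : ℝ)
    (hκ : κ < ‖deriv h z₀‖) : ∃ δ > (0 : ℝ), ∀ y, ‖y - z₀‖ ≤ δ → κ * ‖y - z₀‖ ≤ ‖h y - z₀‖ := by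
  have h1 := hd.hasDerivAt
  rw [hasDerivAt_iff_isLittleO] at h1
  have h2 := h1.def (show 0 < ‖deriv h z₀‖ - κ by linarith)
  rw [Metric.eventually_nhds_iff] at h2
  obtain ⟨e, he, h3⟩ := h2
  refine ⟨e / 2, by linarith, fun y hy => ?_⟩
  have h4 := h3 (show dist y z₀ < e by rw [dist_eq_norm]; linarith)
  rw [hz, smul_eq_mul] at h4
  have h5 : ‖(y - z₀) * deriv h z₀‖ ≤ ‖h y - z₀‖ + ‖h y - z₀ - (y - z₀) * deriv h z₀‖ := by
    calc ‖(y - z₀) * deriv h z₀‖ = ‖(h y - z₀) - (h y - z₀ - (y - z₀) * deriv h z₀)‖ := by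
          congr 1; ring
      _ ≤ _ := norm_sub_le _ _
  rw [norm_mul] at h5
  nlinarith [norm_nonneg (y - z₀)]

theorem REP : REP_stmt := by
  intro h z₀ x hd hz hlt hx ht hacc
  by_contra hne
  push Not at hne
  obtain ⟨κ, hκ1, hκ⟩ := exists_between hlt
  obtain ⟨δ, hδ, hloc⟩ := REP_loc h z₀ hd hz κ hκ
  have hε : 0 < δ * (κ - 1) / κ := by
    have : 0 < κ - 1 := by linarith
    positivity
  rw [Metric.tendsto_atTop] at ht
  obtain ⟨K, hK⟩ := ht _ hε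
  obtain ⟨k₁, hk₁, hk₁d⟩ := hacc δ hδ K
  have hstep : ∀ k, K ≤ k → ‖x (k + 1) - x k‖ < δ * (κ - 1) / κ := by
    intro k hk
    have := hK k hk
    rwa [dist_zero_right] at this
  have hkey : ∀ k, K ≤ k → ‖x k - z₀‖ ≤ δ → ‖x (k + 1) - z₀‖ ≤ δ := by
    intro k hk hd1
    by_contra hlt2
    push Not at hlt2
    have h1 := hstep k hk
    have h2 : κ * ‖x k - z₀‖ ≤ ‖x (k + 1) - z₀‖ := by
      rw [hx k]
      exact hloc _ hd1
    have h3 : ‖x (k + 1) - z₀‖ ≤ ‖x (k + 1) - x k‖ + ‖x k - z₀‖ := by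
      calc ‖x (k + 1) - z₀‖ = ‖(x (k + 1) - x k) + (x k - z₀)‖ := by congr 1; ring
        _ ≤ _ := norm_add_le _ _
    have hκ0 : 0 < κ := by linarith
    rw [lt_div_iff₀ hκ0] at h1
    rcases le_total (κ * ‖x k - z₀‖) δ with hc | hc
    · nlinarith
    · nlinarith
  have hall : ∀ m : ℕ, ‖x (k₁ + m) - z₀‖ ≤ δ ∧ κ ^ m * ‖x k₁ - z₀‖ ≤ ‖x (k₁ + m) - z₀‖ := by
    intro m
    induction m with
    | zero => simp [hk₁d.le]
    | succ m ih =>
      obtain ⟨i1, i2⟩ := ih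
      have h1 := hkey (k₁ + m) (by omega) i1
      refine ⟨h1, ?_⟩
      have h2 : κ * ‖x (k₁ + m) - z₀‖ ≤ ‖x (k₁ + m + 1) - z₀‖ := by
        rw [hx (k₁ + m)]
        exact hloc _ i1
      calc κ ^ (m + 1) * ‖x k₁ - z₀‖ = κ * (κ ^ m * ‖x k₁ - z₀‖) := by ring
        _ ≤ κ * ‖x (k₁ + m) - z₀‖ := by
            apply mul_le_mul_of_nonneg_left i2
            linarith
        _ ≤ _ := h2
  have hpos : 0 < ‖x k₁ - z₀‖ := by
    rw [norm_pos_iff, sub_ne_zero]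
    exact hne k₁
  have htend : Tendsto (fun m : ℕ => κ ^ m * ‖x k₁ - z₀‖) atTop atTop :=
    (tendsto_pow_atTop_atTop_of_one_lt hκ1).atTop_mul_const hpos
  obtain ⟨m, hm⟩ := (htend.eventually (eventually_gt_atTop δ)).exists
  have := hall m
  linarith [this.1, this.2]

end NLT
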